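import Mathlib
import Pool.Agent.Lib.MP_766f4a_gt.TSandwich
import Pool.Agent.Lib.MP_766f4a_gt.LLow

/-!
The Banach-Mazur distance to the cube: `c* = 2/3`. Every symmetric convex body `C` of `ℝ^d` is
sandwiched between a parallelepiped and its dilate by the factor `A d^(2/3) (1 + log d)`, and some
symmetric convex body of `ℝ^d` is not sandwiched between a parallelepiped and its dilate by a
factor smaller than `A' d^(2/3) / (1 + log d)`. Hence `|M(d) - (2/3) log d| ≤ a + log (1 + log d)`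
for all `d ≥ 2`.
-/

set_option autoImplicit false

namespace Pool.Agent.Results.MP_766f4a_gt.ExactConstant

/-- The cube `[-1,1]^d`. -/
def cube (d : ℕ) : Set (Fin d → ℝ) := {x | ∀ i, |x i| ≤ 1}

/-- Symmetric convex bodies of `ℝ^d`: compact convex sets with nonempty interior, `C = -C`. -/
structure IsSymmBody {d : ℕ} (C : Set (Fin d → ℝ)) : Prop where
  isCompact : IsCompact C
  convex : Convex ℝ C
  nonempty_interior : (interior C).Nonempty
  symm : ∀ x ∈ C, -x ∈ C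

/-- The set of all `log l`, `l > 0`, such that `f(D) ⊆ C ⊆ l f(D)` for an invertible affine
map `f`. -/
def logRatios {d : ℕ} (C D : Set (Fin d → ℝ)) : Set ℝ :=
  {t | ∃ l : ℝ, 0 < l ∧ t = Real.log l ∧
    ∃ f : (Fin d → ℝ) ≃ᵃ[ℝ] (Fin d → ℝ), f '' D ⊆ C ∧ C ⊆ (fun x => l • x) '' (f '' D)}

/-- The (logarithmic) Banach-Mazur distance. -/
noncomputable def dBM {d : ℕ} (C D : Set (Fin d → ℝ)) : ℝ := sInf (logRatios C D)

/-- The set of the distances of the symmetric convex bodies of `ℝ^d` from the cube. -/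
def cubeDistances (d : ℕ) : Set ℝ := {t | ∃ C : Set (Fin d → ℝ), IsSymmBody C ∧ t = dBM C (cube d)}

/-- `M(d)`, the supremum of the distances of the symmetric convex bodies of `ℝ^d` from the
cube. -/
noncomputable def M (d : ℕ) : ℝ := sSup (cubeDistances d)

/-- `c*`: the infimum of all `c ≥ 0` such that, for some real `a`, `M(d) ≤ a + c log d` for all
`d ≥ 2`. -/
noncomputable def cStar : ℝ :=
  sInf {c : ℝ | 0 ≤ c ∧ ∃ a : ℝ, ∀ d : ℕ, 2 ≤ d → M d ≤ a + c * Real.log d}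

lemma cube_isCompact (d : ℕ) : IsCompact (cube d) := by
  have h : cube d = Set.pi Set.univ (fun _ => Set.Icc (-1 : ℝ) 1) := by
    ext x
    constructor
    · intro hx i _
      exact abs_le.mp (hx i)
    · intro hx i
      exact abs_le.mpr (hx i (Set.mem_univ i))
  rw [h]
  exact isCompact_univ_pi fun _ => isCompact_Icc

/-- Every admissible ratio is at least one. -/
lemma one_le_ratio {d : ℕ} (hd : 0 < d) {C : Set (Fin d → ℝ)} {l : ℝ} (hl : 0 < l)
    {f : (Fin d → ℝ) ≃ᵃ[ℝ] (Fin d → ℝ)} (h1 : f '' cube d ⊆ C)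
    (h2 : C ⊆ (fun x => l • x) '' (f '' cube d)) : 1 ≤ l := by
  have hc : IsCompact (f '' cube d) :=
    (cube_isCompact d).image (AffineEquiv.toContinuousAffineEquiv f).continuous
  have hne : (f '' cube d).Nonempty := ⟨f 0, 0, by simp [cube], rfl⟩
  obtain ⟨x, hx, hmax⟩ := hc.exists_isMaxOn hne continuous_norm.continuousOn
  have hxpos : 0 < ‖x‖ := by
    by_contra hx0
    have hx0' : ‖x‖ = 0 := le_antisymm (not_lt.mp hx0) (norm_nonneg _)
    have hall : ∀ y ∈ f '' cube d, y = 0 := by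
      intro y hy
      have : ‖y‖ ≤ ‖x‖ := hmax hy
      rw [hx0'] at this
      exact norm_le_zero_iff.mp this
    have e1 : f 0 = 0 := hall _ ⟨0, by simp [cube], rfl⟩
    have e2 : f (fun _ => 1) = 0 := hall _ ⟨fun _ => 1, by simp [cube], rfl⟩
    have e3 := f.injective (e1.trans e2.symm)
    have e4 := congrFun e3 ⟨0, hd⟩
    simp at e4
  obtain ⟨y, hy, hxy⟩ := h2 (h1 hx)
  have h3 : ‖x‖ = l * ‖y‖ := by
    rw [← hxy]
    show ‖l • y‖ = _
    rw [norm_smul, Real.norm_of_nonneg hl.le]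
  have h4 : ‖y‖ ≤ ‖x‖ := hmax hy
  have h5 : ‖x‖ ≤ l * ‖x‖ := by
    calc ‖x‖ = l * ‖y‖ := h3
      _ ≤ l * ‖x‖ := by gcongr
  by_contra hl1
  have : l * ‖x‖ < 1 * ‖x‖ := by
    apply mul_lt_mul_of_pos_right (not_le.mp hl1) hxpos
  linarith

lemma logRatios_nonneg {d : ℕ} (hd : 0 < d) (C : Set (Fin d → ℝ)) :
    ∀ t ∈ logRatios C (cube d), 0 ≤ t := by
  rintro t ⟨l, hl, rfl, f, h1, h2⟩
  exact Real.log_nonneg (one_le_ratio hd hl h1 h2)

/-- `d^(2/3) / (1 + log d) ≤ d`. -/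
lemma rate_le {d : ℕ} (hd : 0 < d) : (d : ℝ) ^ (2 / 3 : ℝ) / (1 + Real.log d) ≤ d := by
  have hd1 : (1 : ℝ) ≤ d := by exact_mod_cast hd
  have hlog : 0 ≤ Real.log d := Real.log_nonneg hd1
  have h1 : (d : ℝ) ^ (2 / 3 : ℝ) ≤ (d : ℝ) ^ (1 : ℝ) :=
    Real.rpow_le_rpow_of_exponent_le hd1 (by norm_num)
  rw [Real.rpow_one] at h1
  have h0 : (0 : ℝ) ≤ (d : ℝ) ^ (2 / 3 : ℝ) := by positivity
  calc (d : ℝ) ^ (2 / 3 : ℝ) / (1 + Real.log d) ≤ (d : ℝ) ^ (2 / 3 : ℝ) / 1 := by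
        apply div_le_div_of_nonneg_left h0 one_pos (by linarith)
    _ ≤ d := by rw [div_one]; exact h1

lemma cube_isSymmBody (d : ℕ) : IsSymmBody (cube d) where
  isCompact := cube_isCompact d
  convex := by
    intro x hx y hy a b ha hb hab i
    have h1 := hx i
    have h2 := hy i
    calc |(a • x + b • y) i| = |a * x i + b * y i| := by simp
      _ ≤ |a * x i| + |b * y i| := abs_add_le _ _
      _ = a * |x i| + b * |y i| := by rw [abs_mul, abs_mul, abs_of_nonneg ha, abs_of_nonneg hb]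
      _ ≤ a * 1 + b * 1 := by gcongr
      _ = 1 := by linarith
  nonempty_interior := by
    refine ⟨0, ?_⟩
    rw [mem_interior_iff_mem_nhds]
    refine Filter.mem_of_superset (Metric.ball_mem_nhds (0 : Fin d → ℝ) one_pos) ?_
    intro x hx i
    rw [mem_ball_zero_iff] at hx
    have := norm_le_pi_norm x i
    rw [Real.norm_eq_abs] at this
    linarith
  symm := by
    intro x hx i
    rw [Pi.neg_apply, abs_neg]
    exact hx i

/-- There are universal constants `A, A' > 0` such that every symmetric convex body `C` of `ℝ^d`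
admits an invertible linear map `f` with `f([-1,1]^d) ⊆ C ⊆ A d^(2/3) (1 + log d) f([-1,1]^d)`,
while for some symmetric convex body `C` of `ℝ^d` no invertible affine map `f` satisfies
`f([-1,1]^d) ⊆ C ⊆ l f([-1,1]^d)` with `0 < l < A' d^(2/3) / (1 + log d)`; the distances of
symmetric convex bodies of `ℝ^d` from the cube are bounded above and their supremum satisfies
`|M(d) - (2/3) log d| ≤ a + log (1 + log d)` for all `d ≥ 2`, with a universal `a`; and
`c* = 2/3`. -/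
theorem result :
    (∃ A : ℝ, 0 < A ∧ ∀ d : ℕ, 0 < d → ∀ C : Set (Fin d → ℝ), IsSymmBody C →
      ∃ f : (Fin d → ℝ) ≃ₗ[ℝ] (Fin d → ℝ), f '' cube d ⊆ C ∧
        C ⊆ (fun x => (A * ((d : ℝ) ^ (2 / 3 : ℝ) * (1 + Real.log d))) • x) '' (f '' cube d)) ∧
    (∃ A' : ℝ, 0 < A' ∧ ∀ d : ℕ, 0 < d → ∃ C : Set (Fin d → ℝ), IsSymmBody C ∧
      ∀ (l : ℝ) (f : (Fin d → ℝ) ≃ᵃ[ℝ] (Fin d → ℝ)), 0 < l → f '' cube d ⊆ C →
        C ⊆ (fun x => l • x) '' (f '' cube d) →
          A' * ((d : ℝ) ^ (2 / 3 : ℝ) / (1 + Real.log d)) ≤ l) ∧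
    (∃ a : ℝ, ∀ d : ℕ, 2 ≤ d → BddAbove (cubeDistances d) ∧
      |M d - 2 / 3 * Real.log d| ≤ a + Real.log (1 + Real.log d)) ∧
    cStar = 2 / 3 := by
  -- the upper bound
  obtain ⟨A, hA, h⟩ := BMTwo.exists_sandwich
  have part1 : ∀ d : ℕ, 0 < d → ∀ C : Set (Fin d → ℝ), IsSymmBody C →
      ∃ f : (Fin d → ℝ) ≃ₗ[ℝ] (Fin d → ℝ), f '' cube d ⊆ C ∧
        C ⊆ (fun x => (A * ((d : ℝ) ^ (2 / 3 : ℝ) * (1 + Real.log d))) • x) '' (f '' cube d) := by
    intro d hd C hC
    have hd' : (0 : ℝ) < d := by exact_mod_cast hd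
    have hlog : 0 ≤ Real.log d := Real.log_nonneg (by exact_mod_cast hd)
    have hpos : 0 < A * ((d : ℝ) ^ (2 / 3 : ℝ) * (1 + Real.log d)) := by positivity
    obtain ⟨f, hf1, hf2⟩ := h d hd C hC.isCompact hC.convex hC.nonempty_interior hC.symm
    refine ⟨f, hf1, fun x hx => ⟨_, hf2 x hx, ?_⟩⟩
    show (A * ((d : ℝ) ^ (2 / 3 : ℝ) * (1 + Real.log d))) •
      ((A * ((d : ℝ) ^ (2 / 3 : ℝ) * (1 + Real.log d)))⁻¹ • x) = x
    rw [smul_smul, mul_inv_cancel₀ hpos.ne', one_smul]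
  have mem1 : ∀ d : ℕ, 2 ≤ d → ∀ C : Set (Fin d → ℝ), IsSymmBody C →
      Real.log (A * ((d : ℝ) ^ (2 / 3 : ℝ) * (1 + Real.log d))) ∈ logRatios C (cube d) := by
    intro d hd C hC
    have hd0 : 0 < d := by omega
    have hd' : (0 : ℝ) < d := by exact_mod_cast hd0
    have hlog : 0 ≤ Real.log d := Real.log_nonneg (by exact_mod_cast hd0)
    obtain ⟨f, hf1, hf2⟩ := part1 d hd0 C hC
    exact ⟨A * ((d : ℝ) ^ (2 / 3 : ℝ) * (1 + Real.log d)), by positivity, rfl,
      f.toAffineEquiv, hf1, hf2⟩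
  have part2 : ∀ d : ℕ, 2 ≤ d → ∀ C : Set (Fin d → ℝ), IsSymmBody C →
      dBM C (cube d) ≤ |Real.log A| + 2 / 3 * Real.log d + Real.log (1 + Real.log d) := by
    intro d hd C hC
    have hd0 : 0 < d := by omega
    have hd' : (0 : ℝ) < d := by exact_mod_cast hd0
    have hlog : 0 ≤ Real.log d := Real.log_nonneg (by exact_mod_cast hd0)
    have h1 : dBM C (cube d) ≤ Real.log (A * ((d : ℝ) ^ (2 / 3 : ℝ) * (1 + Real.log d))) :=
      csInf_le ⟨0, fun t ht => logRatios_nonneg hd0 C t ht⟩ (mem1 d hd C hC)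
    rw [Real.log_mul hA.ne' (by positivity), Real.log_mul (by positivity) (by positivity),
      Real.log_rpow hd'] at h1
    have := le_abs_self (Real.log A)
    linarith
  have hlog : ∀ d : ℕ, 2 ≤ d →
      0 ≤ |Real.log A| + 2 / 3 * Real.log d + Real.log (1 + Real.log d) := by
    intro d hd
    have h1 : 0 ≤ Real.log d := Real.log_nonneg (by exact_mod_cast (by omega : 1 ≤ d))
    have h2 : 0 ≤ Real.log (1 + Real.log d) := Real.log_nonneg (by linarith)
    positivity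
  have part3 : ∀ d : ℕ, 2 ≤ d →
      M d ≤ |Real.log A| + 2 / 3 * Real.log d + Real.log (1 + Real.log d) := by
    intro d hd
    apply Real.sSup_le _ (hlog d hd)
    rintro t ⟨C, hC, rfl⟩
    exact part2 d hd C hC
  have bdd : ∀ d : ℕ, 2 ≤ d → BddAbove (cubeDistances d) := by
    intro d hd
    refine ⟨|Real.log A| + 2 / 3 * Real.log d + Real.log (1 + Real.log d), ?_⟩
    rintro t ⟨C, hC, rfl⟩
    exact part2 d hd C hC
  -- the lower bound
  obtain ⟨c₀, d₀, hc₀, hlow⟩ := BMLow.lower_body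
  obtain ⟨A', hA'⟩ : ∃ A' : ℝ, A' = min c₀ (1 / (d₀ + 1)) := ⟨_, rfl⟩
  have hA'0 : 0 < A' := by rw [hA']; exact lt_min hc₀ (by positivity)
  have part4 : ∀ d : ℕ, 0 < d → ∃ C : Set (Fin d → ℝ), IsSymmBody C ∧
      ∀ (l : ℝ) (f : (Fin d → ℝ) ≃ᵃ[ℝ] (Fin d → ℝ)), 0 < l → f '' cube d ⊆ C →
        C ⊆ (fun x => l • x) '' (f '' cube d) →
          A' * ((d : ℝ) ^ (2 / 3 : ℝ) / (1 + Real.log d)) ≤ l := by
    intro d hd
    have hd1 : (1 : ℝ) ≤ d := by exact_mod_cast hd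
    have hlog : 0 ≤ Real.log d := Real.log_nonneg hd1
    have hr0 : 0 ≤ (d : ℝ) ^ (2 / 3 : ℝ) / (1 + Real.log d) := by positivity
    by_cases hd₀ : d₀ ≤ d
    · obtain ⟨C, h1, h2, h3, h4, h5⟩ := hlow d hd₀
      refine ⟨C, ⟨h1, h2, h3, h4⟩, fun l f hl hf1 hf2 => ?_⟩
      refine le_trans ?_ (h5 l f hl hf1 hf2)
      apply mul_le_mul_of_nonneg_right _ hr0
      rw [hA']; exact min_le_left _ _
    · refine ⟨cube d, cube_isSymmBody d, fun l f hl hf1 hf2 => ?_⟩
      refine le_trans ?_ (one_le_ratio hd hl hf1 hf2)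
      have h1 : A' ≤ 1 / (d₀ + 1) := by rw [hA']; exact min_le_right _ _
      have h2 := rate_le hd
      have h3 : (d : ℝ) ≤ d₀ + 1 := by
        have : d ≤ d₀ + 1 := by omega
        exact_mod_cast this
      calc A' * ((d : ℝ) ^ (2 / 3 : ℝ) / (1 + Real.log d)) ≤ 1 / (d₀ + 1) * (d₀ + 1) := by
            apply mul_le_mul h1 (h2.trans h3) hr0 (by positivity)
        _ = 1 := by field_simp
  have part5 : ∀ d : ℕ, 2 ≤ d →
      -|Real.log A'| + 2 / 3 * Real.log d - Real.log (1 + Real.log d) ≤ M d := by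
    intro d hd
    have hd0 : 0 < d := by omega
    have hd' : (0 : ℝ) < d := by exact_mod_cast hd0
    have hlog : 0 ≤ Real.log d := Real.log_nonneg (by exact_mod_cast hd0)
    obtain ⟨C, hC, hC2⟩ := part4 d hd0
    have h1 : dBM C (cube d) ≤ M d := le_csSup (bdd d hd) ⟨C, hC, rfl⟩
    refine le_trans ?_ h1
    apply le_csInf ⟨_, mem1 d hd C hC⟩
    rintro t ⟨l, hl, rfl, f, hf1, hf2⟩
    have h2 := hC2 l f hl hf1 hf2
    have h3 := Real.log_le_log (by positivity) h2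
    rw [Real.log_mul hA'0.ne' (by positivity), Real.log_div (by positivity) (by positivity),
      Real.log_rpow hd'] at h3
    have := neg_abs_le (Real.log A')
    linarith
  refine ⟨⟨A, hA, part1⟩, ⟨A', hA'0, part4⟩, ⟨|Real.log A| + |Real.log A'|, fun d hd =>
    ⟨bdd d hd, ?_⟩⟩, ?_⟩
  · have h1 := part3 d hd
    have h2 := part5 d hd
    have h3 := abs_nonneg (Real.log A)
    have h4 := abs_nonneg (Real.log A')
    rw [abs_le]
    constructor <;> linarith
  · have hmem : ∀ ε : ℝ, 0 < ε → 2 / 3 + ε ∈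
        {c : ℝ | 0 ≤ c ∧ ∃ a : ℝ, ∀ d : ℕ, 2 ≤ d → M d ≤ a + c * Real.log d} := by
      intro ε hε
      refine ⟨by positivity, |Real.log A| + (ε - 1 - Real.log ε), fun d hd => ?_⟩
      have h1 : 0 ≤ Real.log d := Real.log_nonneg (by exact_mod_cast (by omega : 1 ≤ d))
      have h2 := part3 d hd
      have h3 := Real.log_le_sub_one_of_pos (show 0 < ε * (1 + Real.log d) by positivity)
      rw [Real.log_mul hε.ne' (by positivity)] at h3
      nlinarith
    apply le_antisymm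
    · apply le_of_forall_pos_le_add
      intro ε hε
      exact csInf_le ⟨0, fun c hc => hc.1⟩ (hmem ε hε)
    · apply le_csInf ⟨_, hmem 1 one_pos⟩
      rintro c ⟨_, a, ha⟩
      by_contra hc
      push Not at hc
      obtain ⟨δ, hδ⟩ : ∃ δ : ℝ, δ = (2 / 3 - c) / 2 := ⟨_, rfl⟩
      have hδ0 : 0 < δ := by rw [hδ]; linarith
      obtain ⟨B, hB⟩ : ∃ B : ℝ, B = a + |Real.log A'| + (δ - 1 - Real.log δ) := ⟨_, rfl⟩
      have key : ∀ d : ℕ, 2 ≤ d → δ * Real.log d ≤ B := by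
        intro d hd
        have h1 : 0 ≤ Real.log d := Real.log_nonneg (by exact_mod_cast (by omega : 1 ≤ d))
        have h2 := part5 d hd
        have h3 := ha d hd
        have h4 := Real.log_le_sub_one_of_pos (show 0 < δ * (1 + Real.log d) by positivity)
        rw [Real.log_mul hδ0.ne' (by positivity)] at h4
        have h5 : 2 * δ * Real.log d = 2 / 3 * Real.log d - c * Real.log d := by
          rw [hδ]; ring
        rw [hB]
        nlinarith
      obtain ⟨n, hn⟩ := exists_nat_gt (Real.exp (B / δ))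
      have h1 := key (n + 2) (by omega)
      have h2 : B / δ < Real.log ((n + 2 : ℕ) : ℝ) := by
        rw [Real.lt_log_iff_exp_lt (by positivity)]
        push_cast
        linarith
      rw [div_lt_iff₀ hδ0] at h2
      linarith

end Pool.Agent.Results.MP_766f4a_gt.ExactConstant
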